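import Pool.Agent.H2.ED.Targets3

/-!
# (DSN) solutions over an algebraically closed subfield
-/

set_option autoImplicit false

open MvPolynomial
open Pool.Agent.H12.ZD (pmap)
open Pool.Agent.H18.HIT Pool.Agent.H18.HX Pool.Agent.H18.VZ
open Pool.Agent.H18.VP (Ftd)
open Pool.Agent.H2.ED

namespace Pool.Agent.H52.EDS

theorem pf_DSN : T_DSN := by
  intro σ k₀ k _ _ _ _ _ J g x hJ hg
  by_contra hno
  push Not at hno
  have hrad : g ∈ J.radical := by
    rw [← MvPolynomial.vanishingIdeal_zeroLocus_eq_radical (K := k₀) J]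
    rw [MvPolynomial.mem_vanishingIdeal_iff]
    intro x₀ hx₀
    rw [MvPolynomial.mem_zeroLocus_iff] at hx₀
    have := hno x₀ (fun q hq => by simpa [MvPolynomial.aeval_eq_eval] using hx₀ q hq)
    simpa [MvPolynomial.aeval_eq_eval] using this
  obtain ⟨n, hn⟩ := hrad
  have h := hJ _ hn
  rw [map_pow] at h
  exact pow_ne_zero n hg h

end Pool.Agent.H52.EDS
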