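import Pool.Agent.H2.ED.Targets3

/-!
# (DST) the number of the points in the general fibre over a subfield
-/

set_option autoImplicit false

open MvPolynomial
open Pool.Agent.H12.ZD (pmap)
open Pool.Agent.H18.HIT Pool.Agent.H18.HX Pool.Agent.H18.VZ
open Pool.Agent.H18.VP (Ftd)
open Pool.Agent.H2.ED

namespace Pool.Agent.H52.EDS

section basic

variable {L : ℕ} {k₀ k : Type} [Field k₀] [Field k] [Algebra k₀ k]

/-- the point with the same coordinates in the larger field -/
def em (k : Type) [Field k] [Algebra k₀ k] (x : Fin L → k₀) : Fin L → k :=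
  fun i => algebraMap k₀ k (x i)

theorem eval_up (q : Po L k₀) (x : Fin L → k₀) :
    eval (em k x) (up₀ k₀ q : Po L k) = algebraMap k₀ k (eval x q) := by
  show eval (fun i => algebraMap k₀ k (x i)) (MvPolynomial.map (algebraMap k₀ k) q) = _
  rw [eval_map, eval₂_eq_eval_map, ← MvPolynomial.eval₂_eq_eval_map]
  exact (MvPolynomial.eval₂_comp_left (algebraMap k₀ k) (RingHom.id k₀) x q).symm

theorem em_injective : Function.Injective (em (L := L) (k₀ := k₀) k) := by
  intro x y h
  funext i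
  exact (algebraMap k₀ k).injective (congrFun h i)

theorem pmap_em (f₀ : Tup L k₀) (x : Fin L → k₀) :
    pmap (fun i => (up₀ k₀ (f₀ i) : Po L k)) (em k x) = em k (pmap f₀ x) := by
  funext i
  exact eval_up (f₀ i) x

theorem iter_em (f₀ : Tup L k₀) (m : ℕ) (x : Fin L → k₀) :
    (pmap (fun i => (up₀ k₀ (f₀ i) : Po L k)))^[m] (em k x) = em k ((pmap f₀)^[m] x) := by
  induction m generalizing x with
  | zero => rfl
  | succ m ih => rw [Function.iterate_succ_apply, Function.iterate_succ_apply, pmap_em, ih]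

theorem zer_em {I₀ : Ideal (Po L k₀)} {x : Fin L → k₀} (hx : Zer I₀ x) :
    Zer (Ideal.map (up₀ k₀ : Po L k₀ →+* Po L k) I₀) (em k x) := by
  intro q hq
  have hle : Ideal.map (up₀ k₀ : Po L k₀ →+* Po L k) I₀ ≤ RingHom.ker (eval (em k x)) := by
    rw [Ideal.map_le_iff_le_comap]
    intro p hp
    rw [Ideal.mem_comap, RingHom.mem_ker, eval_up, hx p hp, map_zero]
  exact hle hq

theorem up_hom {q : Po L k₀} {d : ℕ} (hq : q.IsHomogeneous d) :
    (up₀ k₀ q : Po L k).IsHomogeneous d := hq.map _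

end basic

theorem pf_DST (hX : T_DSX) : T_DST := by
  intro L n k₀ k _ _ _ I₀ f₀ μ C hP m s₀ s' s hs₀ hs' hs
  classical
  obtain ⟨c, hc, hcov⟩ := hP m (up₀ k₀ s₀) (up₀ k₀ s') (fun i => up₀ k₀ (s i)) (up_hom hs₀)
    (up_hom hs') (fun i => up_hom (hs i))
  obtain ⟨r, ω, q, hω, hq⟩ := hX n k₀ k c
  obtain ⟨j, hj⟩ : ∃ j, q j ≠ 0 := by
    by_contra hno
    push Not at hno
    refine hc ?_
    rw [hq]
    refine Finset.sum_eq_zero fun j _ => ?_
    rw [hno j, map_zero, mul_zero]
  refine ⟨q j, hj, ?_⟩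
  intro t ht S hS
  have ht' : eval (em k t) c ≠ 0 := by
    intro h0
    rw [hq, map_sum] at h0
    have h1 : ∑ i, (eval t (q i)) • ω i = 0 := by
      rw [← h0]
      refine Finset.sum_congr rfl fun i _ => ?_
      rw [map_mul, eval_C, eval_up, Algebra.smul_def, mul_comm]
    exact ht (Fintype.linearIndependent_iff.1 hω (fun i => eval t (q i)) h1 j)
  have h := hcov (em k t) ht' (S.image (em k)) (by
    intro x hx
    obtain ⟨y, hy, rfl⟩ := Finset.mem_image.1 hx
    obtain ⟨h1, h2, h3, h4⟩ := hS y hy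
    refine ⟨zer_em h1, ?_, ?_, ?_⟩
    · rw [eval_up, h2, map_one]
    · rw [iter_em, eval_up]
      exact fun h => h3 ((algebraMap k₀ k).injective (by rw [h, map_zero]))
    · intro i
      refine ⟨fun hi => ?_, fun hi => ?_⟩
      · rw [eval_up, (h4 i).1 hi]
        rfl
      · rw [iter_em, eval_up, eval_up, (h4 i).2 hi, map_mul]
        rfl)
  rw [Finset.card_image_of_injective _ em_injective] at h
  exact h

end Pool.Agent.H52.EDS
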